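import Pool.Agent.P8H44.DC.Smo

/-!
# Project DC, part CLS (helper44): the closed part of the cover
-/

set_option autoImplicit false

open MvPolynomial

namespace Pool.Agent.P8H44.DC

open Pool.Agent.P8H48.DC

theorem core {R Q M : Type} [CommRing R] [CommRing Q] [CommRing M] [Algebra R Q] [Algebra R M]
    (S : Finset R) (b : R) (hu : ∀ c ∈ S, IsUnit (b - c)) (ψ : Q →ₐ[R] M) (z : Q)
    (hz : ψ z = algebraMap R M b)
    (hch : (z - algebraMap R Q b) * ∏ c ∈ S, (z - algebraMap R Q c) = 0)
    (hker : ∀ (T : Type) [CommRing T] (κ : Q →+* T), κ (z - algebraMap R Q b) = 0 →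
      ∀ y, ψ y = 0 → κ y = 0) :
    ∃ e, IsIdempotentElem e ∧ RingHom.ker ψ = Ideal.span {e} := by
  rw [← G_aeval] at hch
  obtain ⟨v, hv⟩ : ∃ v, v = Polynomial.eval b (G S) := ⟨_, rfl⟩
  have hvu : IsUnit v := by
    rw [hv]
    unfold G
    rw [Polynomial.eval_prod]
    apply Finset.prod_induction _ IsUnit (fun _ _ => IsUnit.mul) isUnit_one
    intro c hc
    rw [Polynomial.eval_sub, Polynomial.eval_X, Polynomial.eval_C]
    exact hu c hc
  obtain ⟨v', hv'⟩ := hvu.exists_right_inv
  obtain ⟨q, hq⟩ : (Polynomial.X - Polynomial.C b) ∣ G S - Polynomial.C v := by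
    rw [hv]
    exact Polynomial.X_sub_C_dvd_sub_C_eval
  obtain ⟨g, hg⟩ : ∃ g, g = Polynomial.aeval z (G S) := ⟨_, rfl⟩
  have hψg : ψ g = algebraMap R M v := by
    rw [hg, ← Polynomial.aeval_algHom_apply, hz, hv, Polynomial.aeval_algebraMap_apply,
      Polynomial.coe_aeval_eq_eval]
  rw [← hg] at hch
  obtain ⟨B, hB⟩ : ∃ B, B = algebraMap R Q b := ⟨_, rfl⟩
  obtain ⟨V, hV⟩ : ∃ V, V = algebraMap R Q v := ⟨_, rfl⟩
  obtain ⟨V', hV'⟩ : ∃ V', V' = algebraMap R Q v' := ⟨_, rfl⟩
  have hVV : V * V' = 1 := by rw [hV, hV', ← map_mul, hv', map_one]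
  have hgq : g - V = (z - B) * Polynomial.aeval z q := by
    have h2 := congrArg (Polynomial.aeval z) hq
    rw [map_sub, map_mul, map_sub, Polynomial.aeval_X, Polynomial.aeval_C, Polynomial.aeval_C,
      ← hg, ← hB, ← hV] at h2
    exact h2
  rw [← hB] at hch
  have hid : (V' * g) * (V' * g) = V' * g := by
    have h2 : g = V + (z - B) * Polynomial.aeval z q := by rw [← hgq]; ring
    calc (V' * g) * (V' * g) = V' * g * (V' * (V + (z - B) * Polynomial.aeval z q)) := by
          rw [← h2]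
      _ = V' * g * (V * V') + V' * V' * Polynomial.aeval z q * ((z - B) * g) := by ring
      _ = V' * g := by rw [hVV, hch]; ring
  refine ⟨1 - V' * g, ?_, ?_⟩
  · show (1 - V' * g) * (1 - V' * g) = 1 - V' * g
    linear_combination hid
  · apply le_antisymm
    · intro y hy
      have h2 : Ideal.Quotient.mk (Ideal.span {z - B}) y = 0 := by
        apply hker (Q ⧸ Ideal.span {z - B}) (Ideal.Quotient.mk _) _ y hy
        rw [← hB]
        exact Ideal.Quotient.eq_zero_iff_mem.2 (Ideal.mem_span_singleton_self _)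
      rw [Ideal.Quotient.eq_zero_iff_mem] at h2
      obtain ⟨c, rfl⟩ := Ideal.mem_span_singleton'.1 h2
      rw [Ideal.mem_span_singleton']
      refine ⟨c * (z - B), ?_⟩
      linear_combination (-(c * V')) * hch
    · rw [Ideal.span_le]
      rintro y rfl
      show ψ (1 - V' * g) = 0
      rw [map_sub, map_one, map_mul, hψg, hV', AlgHom.commutes, ← map_mul, mul_comm v' v, hv',
        map_one, sub_self]

theorem cls : S_CLS := by
  classical
  intro R A _ _ _ S f a b ha hb hab hS
  have hba : b ∈ S.erase a := Finset.mem_erase.2 ⟨hab.symm, hb⟩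
  -- the map on polynomials
  let p : MvPolynomial (Fin 2) A →ₐ[A] MvPolynomial (Fin 1) (A ⧸ Ideal.span {f}) :=
    MvPolynomial.aeval ![X 0, C (algebraMap R (A ⧸ Ideal.span {f}) b)]
  have hmap : ∀ r : A, algebraMap A (MvPolynomial (Fin 1) (A ⧸ Ideal.span {f})) r =
      C (Ideal.Quotient.mk _ r) := fun r => rfl
  have hmapR : ∀ r : R, algebraMap R (MvPolynomial (Fin 1) (A ⧸ Ideal.span {f})) r =
      C (algebraMap R (A ⧸ Ideal.span {f}) r) := fun r => rfl
  have hf0 : (C (Ideal.Quotient.mk (Ideal.span {f}) f) :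
      MvPolynomial (Fin 1) (A ⧸ Ideal.span {f})) = 0 := by
    rw [Ideal.Quotient.eq_zero_iff_mem.2 (Ideal.mem_span_singleton_self f), map_zero]
  have hpC : ∀ r : A, p (C r) = C (Ideal.Quotient.mk _ r) := fun r => by
    rw [show p (C r) = algebraMap A _ r from aeval_C _ _, hmap]
  have hp0 : p (X 0) = X 0 := aeval_X _ _
  have hp1 : p (X 1) = C (algebraMap R (A ⧸ Ideal.span {f}) b) := aeval_X _ _
  have hprod : ∀ U : Finset R, p (∏ c ∈ U, (X 1 - C (algebraMap R A c))) =
      C (∏ c ∈ U, (algebraMap R (A ⧸ Ideal.span {f}) b - algebraMap R (A ⧸ Ideal.span {f}) c)) := by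
    intro U
    rw [map_prod, map_prod]
    apply Finset.prod_congr rfl
    intro c _
    rw [map_sub, hp1, hpC, map_sub]
    rfl
  have hprod0 : ∀ U : Finset R, b ∈ U → p (∏ c ∈ U, (X 1 - C (algebraMap R A c))) = 0 := by
    intro U hU
    rw [hprod]
    have h2 : ∏ c ∈ U, (algebraMap R (A ⧸ Ideal.span {f}) b -
        algebraMap R (A ⧸ Ideal.span {f}) c) = 0 := Finset.prod_eq_zero hU (sub_self _)
    rw [h2, map_zero]
  have h0 : ∀ y ∈ Ideal.span {eqn S f}, (p.restrictScalars R) y = 0 := by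
    intro y hy
    obtain ⟨c, rfl⟩ := Ideal.mem_span_singleton'.1 hy
    show p (c * eqn S f) = 0
    unfold eqn
    rw [map_mul, map_sub, hprod0 S hb, map_mul, hpC, hf0, mul_zero, sub_zero, mul_zero]
  let ψ0 : Cov S f →ₐ[R] MvPolynomial (Fin 1) (A ⧸ Ideal.span {f}) :=
    Ideal.Quotient.liftₐ (Ideal.span {eqn S f}) (p.restrictScalars R) h0
  have hψ0 : ∀ y, ψ0 (Ideal.Quotient.mk _ y) = p y := fun y => rfl
  have h1 : ∀ y ∈ Ideal.span ({cf S f, ch S f a} : Set (Cov S f)), ψ0 y = 0 := by
    have h2 : Ideal.span ({cf S f, ch S f a} : Set (Cov S f)) ≤ RingHom.ker ψ0 := by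
      rw [Ideal.span_le]
      rintro y (rfl | rfl)
      · show ψ0 (Ideal.Quotient.mk _ (C f)) = 0
        rw [hψ0, hpC, hf0]
      · show ψ0 (Ideal.Quotient.mk _ (∏ b ∈ S.erase a, (X 1 - C (algebraMap R A b)))) = 0
        rw [hψ0]
        convert hprod0 (S.erase a) hba
    exact fun y hy => h2 hy
  let ψ : (Cov S f ⧸ Ideal.span ({cf S f, ch S f a} : Set (Cov S f))) →ₐ[R]
      MvPolynomial (Fin 1) (A ⧸ Ideal.span {f}) := Ideal.Quotient.liftₐ _ ψ0 h1
  have hψ : ∀ y, ψ (Ideal.Quotient.mk _ (Ideal.Quotient.mk _ y)) = p y := fun y => rfl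
  refine ⟨ψ, ?_, ?_⟩
  · intro y
    induction y using MvPolynomial.induction_on with
    | C r =>
      obtain ⟨r', rfl⟩ := Ideal.Quotient.mk_surjective r
      exact ⟨Ideal.Quotient.mk _ (Ideal.Quotient.mk _ (C r')), by rw [hψ, hpC]⟩
    | add y y' h h' =>
      obtain ⟨u, hu⟩ := h
      obtain ⟨u', hu'⟩ := h'
      exact ⟨u + u', by rw [map_add, hu, hu']⟩
    | mul_X y i h =>
      obtain ⟨u, hu⟩ := h
      refine ⟨u * Ideal.Quotient.mk _ (Ideal.Quotient.mk _ (X 0)), ?_⟩
      rw [map_mul, hu, hψ, hp0]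
      congr 2
      exact Subsingleton.elim _ _
  · -- the idempotent
    have hu : ∀ c ∈ (S.erase a).erase b, IsUnit (b - c) := fun c hc => by
      have h2 := Finset.mem_erase.1 hc
      exact hS b hb c (Finset.mem_erase.1 h2.2).2 h2.1.symm
    refine core ((S.erase a).erase b) b hu ψ
      (Ideal.Quotient.mk (Ideal.span ({cf S f, ch S f a} : Set (Cov S f)))
        (Ideal.Quotient.mk (Ideal.span {eqn S f}) (X 1))) ?_ ?_ ?_
    · rw [hψ, hp1, hmapR]
    · have h2 : Ideal.Quotient.mk (Ideal.span ({cf S f, ch S f a} : Set (Cov S f))) (ch S f a) = 0 :=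
        Ideal.Quotient.eq_zero_iff_mem.2 (Ideal.subset_span (by right; rfl))
      have h4 : ch S f a = Ideal.Quotient.mk _ (∏ b ∈ S.erase a, (X 1 - C (algebraMap R A b))) := by
        unfold ch
        convert rfl
      have h5 := (congrArg (Ideal.Quotient.mk
        (Ideal.span ({cf S f, ch S f a} : Set (Cov S f)))) h4).symm.trans h2
      rw [← Finset.mul_prod_erase _ _ hba, map_mul, map_mul, map_prod, map_prod] at h5
      exact h5
    · intro T _ κ hκ
      let j : A →+* T := κ.comp ((Ideal.Quotient.mk _).comp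
            ((Ideal.Quotient.mk (Ideal.span {eqn S f})).comp C))
      have hj : ∀ y ∈ Ideal.span {f}, j y = 0 := by
        intro y hy
        obtain ⟨c, rfl⟩ := Ideal.mem_span_singleton'.1 hy
        rw [map_mul]
        have h2 : Ideal.Quotient.mk (Ideal.span ({cf S f, ch S f a} : Set (Cov S f))) (cf S f) = 0 :=
          Ideal.Quotient.eq_zero_iff_mem.2 (Ideal.subset_span (by left; rfl))
        have h3 : j f = 0 := by
          show κ (Ideal.Quotient.mk _ (cf S f)) = 0
          rw [h2, map_zero]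
        rw [h3, mul_zero]
      let θ : MvPolynomial (Fin 1) (A ⧸ Ideal.span {f}) →+* T :=
        MvPolynomial.eval₂Hom (Ideal.Quotient.lift (Ideal.span {f}) j hj)
          (fun _ => κ (Ideal.Quotient.mk _ (Ideal.Quotient.mk _ (X 0))))
      have hθ : θ.comp (ψ : (Cov S f ⧸ Ideal.span ({cf S f, ch S f a} : Set (Cov S f))) →+*
          MvPolynomial (Fin 1) (A ⧸ Ideal.span {f})) = κ := by
        apply Ideal.Quotient.ringHom_ext
        apply Ideal.Quotient.ringHom_ext
        apply MvPolynomial.ringHom_ext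
        · intro r
          show θ (p (C r)) = _
          rw [hpC]
          show MvPolynomial.eval₂ _ _ (C _) = _
          rw [MvPolynomial.eval₂_C]
          rfl
        · intro i
          fin_cases i
          · show θ (p (X 0)) = _
            rw [hp0]
            show MvPolynomial.eval₂ _ _ (X _) = _
            rw [MvPolynomial.eval₂_X]
            rfl
          · show θ (p (X 1)) = _
            rw [hp1]
            show MvPolynomial.eval₂ _ _ (C _) = _
            rw [MvPolynomial.eval₂_C]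
            rw [map_sub, sub_eq_zero] at hκ
            exact hκ.symm
      intro y hy
      rw [← hθ]
      show θ (ψ y) = 0
      rw [hy, map_zero]

end Pool.Agent.P8H44.DC
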