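import Pool.Agent.P8H48.DC.Stm

/-!
# Project DC, part SMO (helper44): the cover is smooth
-/

set_option autoImplicit false

open MvPolynomial

namespace Pool.Agent.P8H44.DC

open Pool.Agent.P8H48.DC

section
variable {R A : Type} [CommRing R] [CommRing A] [Algebra R A]

/-- the monic polynomial with the roots in `S` -/
noncomputable def G (S : Finset R) : Polynomial R := ∏ c ∈ S, (Polynomial.X - Polynomial.C c)

theorem G_aeval (S : Finset R) {B : Type*} [CommRing B] [Algebra R B] (z : B) :
    Polynomial.aeval z (G S) = ∏ c ∈ S, (z - algebraMap R B c) := by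
  unfold G
  rw [map_prod]
  apply Finset.prod_congr rfl
  intro c _
  rw [map_sub, Polynomial.aeval_X, Polynomial.aeval_C]

theorem G_coprime {S : Finset R} (h : UnitDiff S) :
    IsCoprime (G S) (Polynomial.derivative (G S)) :=
  Polynomial.separable_prod' (fun x hx y hy hxy =>
    Polynomial.isCoprime_X_sub_C_of_isUnit_sub (h x hx y hy hxy))
    (fun x _ => Polynomial.separable_X_sub_C)

theorem aeval_eqn (S : Finset R) (f : A) {B : Type*} [CommRing B] [Algebra A B] [Algebra R B]
    [IsScalarTower R A B] (p : Fin 2 → B) :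
    MvPolynomial.aeval (R := A) p (eqn S f) =
      Polynomial.aeval (p 1) (G S) - p 0 * algebraMap A B f := by
  unfold eqn
  rw [map_sub, map_prod, map_mul, aeval_X, aeval_C, G_aeval]
  congr 1
  apply Finset.prod_congr rfl
  intro c _
  rw [map_sub, aeval_X, aeval_C, ← IsScalarTower.algebraMap_apply]

theorem cov_formallySmooth {S : Finset R} (h : UnitDiff S) (f : A) :
    Algebra.FormallySmooth A (Cov S f) := by
  apply Algebra.FormallySmooth.of_comp_surjective
  intro B _ _ I hI F
  let i1 : Algebra R B := ((algebraMap A B).comp (algebraMap R A)).toAlgebra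
  have i2 : IsScalarTower R A B := IsScalarTower.of_algebraMap_eq fun _ => rfl
  obtain ⟨t, ht⟩ := Ideal.Quotient.mk_surjective (F (Ideal.Quotient.mk _ (X 0)))
  obtain ⟨z, hz⟩ := Ideal.Quotient.mk_surjective (F (Ideal.Quotient.mk _ (X 1)))
  have hrel : Polynomial.aeval z (G S) - t * algebraMap A B f ∈ I := by
    rw [← Ideal.Quotient.eq_zero_iff_mem]
    have h1 : F (Ideal.Quotient.mkₐ A _ (eqn S f)) = 0 := by
      have : Ideal.Quotient.mkₐ A (Ideal.span {eqn S f}) (eqn S f) = 0 :=
        Ideal.Quotient.eq_zero_iff_mem.2 (Ideal.subset_span rfl)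
      rw [this, map_zero]
    have h2 : F.comp (Ideal.Quotient.mkₐ A (Ideal.span {eqn S f})) =
        (Ideal.Quotient.mkₐ A I).comp (MvPolynomial.aeval ![t, z]) := by
      apply MvPolynomial.algHom_ext
      intro i
      fin_cases i
      · show F (Ideal.Quotient.mk _ (X 0)) = Ideal.Quotient.mk I (MvPolynomial.aeval ![t, z] (X 0))
        rw [aeval_X, ← ht]
        rfl
      · show F (Ideal.Quotient.mk _ (X 1)) = Ideal.Quotient.mk I (MvPolynomial.aeval ![t, z] (X 1))
        rw [aeval_X, ← hz]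
        rfl
    have h3 : F (Ideal.Quotient.mkₐ A (Ideal.span {eqn S f}) (eqn S f)) =
        Ideal.Quotient.mk I (MvPolynomial.aeval ![t, z] (eqn S f)) :=
      DFunLike.congr_fun h2 (eqn S f)
    rw [h3, aeval_eqn] at h1
    exact h1
  obtain ⟨α, β, hαβ⟩ := G_coprime h
  have h4 := congrArg (Polynomial.aeval z) hαβ
  rw [map_add, map_mul, map_mul, map_one] at h4
  obtain ⟨ε, hε⟩ : ∃ ε, ε = Polynomial.aeval z (G S) - t * algebraMap A B f := ⟨_, rfl⟩
  rw [← hε] at hrel
  have hε2 : ε ^ 2 = 0 := by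
    have : ε ^ 2 ∈ I ^ 2 := Ideal.pow_mem_pow hrel 2
    rw [hI] at this
    exact this
  obtain ⟨z', hz'⟩ : ∃ z', z' = z + -(Polynomial.aeval z β * ε) := ⟨_, rfl⟩
  obtain ⟨t', ht'⟩ : ∃ t', t' = t + Polynomial.aeval z α * t * ε := ⟨_, rfl⟩
  have hzero : MvPolynomial.aeval (R := A) ![t', z'] (eqn S f) = 0 := by
    rw [aeval_eqn]
    show Polynomial.aeval z' (G S) - t' * algebraMap A B f = 0
    rw [hz', Polynomial.aeval_add_of_sq_eq_zero _ _ _ (by
      rw [neg_sq, mul_pow, hε2, mul_zero]), ht']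
    have h5 : Polynomial.aeval z (G S) = ε + t * algebraMap A B f := by rw [hε]; ring
    rw [h5] at h4 ⊢
    have h6 : ε * (Polynomial.aeval z α * (ε + t * algebraMap A B f) +
      Polynomial.aeval z β * Polynomial.aeval z (Polynomial.derivative (G S))) = ε := by
      rw [h4, mul_one]
    have h7 : ε * ε = 0 := by rw [← pow_two, hε2]
    linear_combination (-1 : B) * h6 + Polynomial.aeval z α * h7
  have hker : ∀ a ∈ Ideal.span {eqn S f}, MvPolynomial.aeval (R := A) ![t', z'] a = 0 := by
    intro a ha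
    obtain ⟨c, rfl⟩ := Ideal.mem_span_singleton'.1 ha
    rw [map_mul, hzero, mul_zero]
  refine ⟨Ideal.Quotient.liftₐ _ (MvPolynomial.aeval (R := A) ![t', z']) hker, ?_⟩
  apply Ideal.Quotient.algHom_ext
  apply MvPolynomial.algHom_ext
  intro i
  fin_cases i
  · show Ideal.Quotient.mk I (MvPolynomial.aeval ![t', z'] (X 0)) = F (Ideal.Quotient.mk _ (X 0))
    rw [aeval_X, ← ht]
    show Ideal.Quotient.mk I t' = _
    rw [ht', map_add, Ideal.Quotient.eq_zero_iff_mem.2 (Ideal.mul_mem_left _ _ hrel), add_zero]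
  · show Ideal.Quotient.mk I (MvPolynomial.aeval ![t', z'] (X 1)) = F (Ideal.Quotient.mk _ (X 1))
    rw [aeval_X, ← hz]
    show Ideal.Quotient.mk I z' = _
    rw [hz', map_add, map_neg, Ideal.Quotient.eq_zero_iff_mem.2 (Ideal.mul_mem_left _ _ hrel),
      neg_zero, add_zero]

theorem cov_smooth {S : Finset R} (h : UnitDiff S) (f : A) : Algebra.Smooth A (Cov S f) := by
  have h1 := cov_formallySmooth h f
  have h2 : Algebra.FinitePresentation A (Cov S f) :=
    Algebra.FinitePresentation.quotient ⟨{eqn S f}, by simp⟩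
  exact ⟨h1, h2⟩

end

theorem smo : S_SMO := by
  intro R A _ _ _ _ S f h
  have h1 := cov_smooth h f
  exact Algebra.Smooth.comp R A (Cov S f)

end Pool.Agent.P8H44.DC
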